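import Pool.Agent.Helper38.FD.Defs

/-!
# The density theorem for all characters of order `p` (MP_fc6b1e_nt): definitions

`Ω` is the algebraic closure of the number field `K`.
-/

namespace Pool.Agent.Helper38.FW

open NumberField Module IsDedekindDomain Pool.Agent.Helper51.SigLeo Pool.Agent.Helper38.FD

/-- `g` is in the decomposition group of the place of `Ω` above `p` which is induced by `τ : Ω → ℂ_p`. -/
def InDec {p : ℕ} [Fact p.Prime] {K : Type} [Field K] (τ : AlgebraicClosure K →+* ℂ_[p])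
    (g : AlgebraicClosure K ≃ₐ[K] AlgebraicClosure K) : Prop :=
  ∀ x : AlgebraicClosure K, ‖τ (g x)‖ = ‖τ x‖

/-- The character `χ` is congruent to the cyclotomic character `ω` at `g`, modulo the maximal ideal: if `g`
acts on the `p`-th roots of unity as `ξ ↦ ξ^r`, then `|χ(g) - r| < 1`. -/
def OmegaAt {p : ℕ} [Fact p.Prime] {K : Type} [Field K]
    (χ : Chr K (AlgebraicClosure K) ℂ_[p]) (g : AlgebraicClosure K ≃ₐ[K] AlgebraicClosure K) :
    Prop :=
  ∀ r : ℕ, (∀ ξ : AlgebraicClosure K, ξ ^ p = 1 → g ξ = ξ ^ r) → ‖((χ g : ℂ_[p]ˣ) : ℂ_[p]) - r‖ < 1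

/-- The character `χ` is congruent to the cyclotomic character `ω`. -/
def IsOmega {p : ℕ} [Fact p.Prime] {K : Type} [Field K]
    (χ : Chr K (AlgebraicClosure K) ℂ_[p]) : Prop :=
  ∀ g : AlgebraicClosure K ≃ₐ[K] AlgebraicClosure K, OmegaAt χ g

/-- A base character `χ ψ`, with a `p`-ordinary CM type `S`: `χ` cuts out the field `M`, of degree prime
to `p`, and is not congruent to `ω`; `ψ` cuts out the field `F`, of `p`-power degree, and `ψ^p` is trivial on
the decomposition groups above `p`. If some `χ^(1 + p^j)` is congruent to `ω`, then the degree of `F` is at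
least `p²` or `M` is not contained in `K(μ_p)`. -/
structure BaseChr {p : ℕ} [Fact p.Prime] {K : Type} [Field K] [NumberField K]
    (ιinf : AlgebraicClosure K →+* ℂ) (ιp : AlgebraicClosure K →+* ℂ_[p]) where
  /-- the CM type -/
  S : Set (K →+* ℂ)
  /-- the character of order prime to `p` -/
  χ : Chr K (AlgebraicClosure K) ℂ_[p]
  /-- the character of `p`-power order -/
  ψ : Chr K (AlgebraicClosure K) ℂ_[p]
  /-- the field of `χ` -/
  M : IntermediateField K (AlgebraicClosure K)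
  /-- the field of `ψ` -/
  F : IntermediateField K (AlgebraicClosure K)
  isCMType : IsCMType S
  isOrdinary : IsOrdinary ιinf ιp S
  cutsOutM : CutsOut χ M
  cutsOutF : CutsOut ψ F
  coprime : (finrank K M).Coprime p
  degree : ∃ l : ℕ, finrank K F = p ^ l
  split : ∀ (τ : AlgebraicClosure K →+* ℂ_[p]) (g : AlgebraicClosure K ≃ₐ[K] AlgebraicClosure K),
    InDec τ g → ψ g ^ p = 1
  not_omega : ¬ IsOmega χ
  large : (∃ j : ℕ, IsOmega (χ ^ (1 + p ^ j))) → p ^ 2 ≤ finrank K F ∨
    ∀ ξ : AlgebraicClosure K, IsPrimitiveRoot ξ p → ¬ M ≤ IntermediateField.adjoin K {ξ}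

/-- `Q = p^f`, where `f` is the order of `p` modulo `[M : K]`. -/
noncomputable def BaseChr.Q {p : ℕ} [Fact p.Prime] {K : Type} [Field K] [NumberField K]
    {ιinf : AlgebraicClosure K →+* ℂ} {ιp : AlgebraicClosure K →+* ℂ_[p]}
    (D : BaseChr ιinf ιp) : ℕ :=
  p ^ sInf {f : ℕ | 0 < f ∧ finrank K D.M ∣ p ^ f - 1}

open Classical in
/-- The constant of the base character: `Q/(p (Q - 1))` if some `χ^(1 + p^j)` is congruent to `ω`, and
`1/(Q - 1)` otherwise. -/
noncomputable def BaseChr.theta {p : ℕ} [Fact p.Prime] {K : Type} [Field K] [NumberField K]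
    {ιinf : AlgebraicClosure K →+* ℂ} {ιp : AlgebraicClosure K →+* ℂ_[p]}
    (D : BaseChr ιinf ιp) : ℝ :=
  if ∃ j : ℕ, IsOmega (D.χ ^ (1 + p ^ j)) then (D.Q : ℝ) / (p * ((D.Q : ℝ) - 1))
  else 1 / ((D.Q : ℝ) - 1)

/-- The pairs `(N, φ)`, `N` a cyclic extension of degree `p` of `K` in `Ω` and `φ` a character of `Gal(Ω/K)`
which cuts out `N`. -/
def AllChr (p : ℕ) [Fact p.Prime] (K : Type) [Field K] :
    Set (IntermediateField K (AlgebraicClosure K) × Chr K (AlgebraicClosure K) ℂ_[p]) :=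
  {x | finrank K x.1 = p ∧ CutsOut x.2 x.1}

/-- The set `A` of pairs `(N, φ)` is not empty and is given by conditions on the restrictions of `φ` to the
decomposition groups above `p`. -/
structure IsLocal {p : ℕ} [Fact p.Prime] {K : Type} [Field K]
    (A : Set (IntermediateField K (AlgebraicClosure K) × Chr K (AlgebraicClosure K) ℂ_[p])) :
    Prop where
  subset : A ⊆ AllChr p K
  nonempty : A.Nonempty
  same : ∀ x ∈ A, ∀ y ∈ AllChr p K, (∀ (τ : AlgebraicClosure K →+* ℂ_[p])
    (g : AlgebraicClosure K ≃ₐ[K] AlgebraicClosure K), InDec τ g → x.2 g = y.2 g) → y ∈ A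

/-- The function `e` of the pairs `(N, φ)` has values `≥ 1` and depends only on the restrictions of `φ` to
the decomposition groups above `p`. -/
structure IsWeight {p : ℕ} [Fact p.Prime] {K : Type} [Field K]
    (e : IntermediateField K (AlgebraicClosure K) × Chr K (AlgebraicClosure K) ℂ_[p] → ℕ) :
    Prop where
  one_le : ∀ x, 1 ≤ e x
  same : ∀ x ∈ AllChr p K, ∀ y ∈ AllChr p K, (∀ (τ : AlgebraicClosure K →+* ℂ_[p])
    (g : AlgebraicClosure K ≃ₐ[K] AlgebraicClosure K), InDec τ g → x.2 g = y.2 g) → e x = e y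

/-- For every place `v` of `K` induced by `ι_p s` with `ι_∞ s ∈ S` (that is, `v ∈ Σ_p`): `χ` is not congruent
to `ω` on the decomposition groups above `v`, or `ψ φ` is trivial on them. -/
def BaseChr.Adm {p : ℕ} [Fact p.Prime] {K : Type} [Field K] [NumberField K]
    {ιinf : AlgebraicClosure K →+* ℂ} {ιp : AlgebraicClosure K →+* ℂ_[p]}
    (D : BaseChr ιinf ιp)
    (x : IntermediateField K (AlgebraicClosure K) × Chr K (AlgebraicClosure K) ℂ_[p]) : Prop :=
  ∀ s : K →+* AlgebraicClosure K, ιinf.comp s ∈ D.S →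
    (∀ τ : AlgebraicClosure K →+* ℂ_[p], τ.comp (algebraMap K (AlgebraicClosure K)) = ιp.comp s →
      ∃ g, InDec τ g ∧ ¬ OmegaAt D.χ g) ∨
    (∀ τ : AlgebraicClosure K →+* ℂ_[p], τ.comp (algebraMap K (AlgebraicClosure K)) = ιp.comp s →
      ∀ g, InDec τ g → D.ψ g * x.2 g = 1)

/-- `(N, φ)` is good for the base character `χ ψ` if the `Σ`-Leopoldt conjecture holds for all the
characters `χ^(p^r) (ψ φ)^s`, where `p` does not divide `s` (for instance, for `χ ψ φ`). -/
def BaseChr.Good {p : ℕ} [Fact p.Prime] {K : Type} [Field K] [NumberField K]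
    {ιinf : AlgebraicClosure K →+* ℂ} {ιp : AlgebraicClosure K →+* ℂ_[p]}
    (D : BaseChr ιinf ιp) (L : IwasawaLog p ℂ_[p])
    (x : IntermediateField K (AlgebraicClosure K) × Chr K (AlgebraicClosure K) ℂ_[p]) : Prop :=
  ∀ r s : ℕ, ¬ p ∣ s → LeopoldtFor ιinf ιp L D.S (D.χ ^ p ^ r * (D.ψ * x.2) ^ s)

/-- The product of the norms of the primes `v` of `K` which are not above `p` and are ramified in `N`, that is,
`v 𝓞_N ⊆ V²` for some prime `V` of `N`. -/
noncomputable def tame (p : ℕ) (K N : Type) [Field K] [NumberField K] [Field N] [Algebra K N] : ℕ :=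
  ∏ᶠ (v : HeightOneSpectrum (𝓞 K)) (_ : (p : 𝓞 K) ∉ v.asIdeal ∧
    ∃ V : HeightOneSpectrum (𝓞 N), v.asIdeal.map (algebraMap (𝓞 K) (𝓞 N)) ≤ V.asIdeal ^ 2),
    Ideal.absNorm v.asIdeal

/-- The number of the `(N, φ)` in `A` with `tame p K N * e (N, φ) ≤ X`. -/
noncomputable def countChr {p : ℕ} [Fact p.Prime] {K : Type} [Field K] [NumberField K]
    (e : IntermediateField K (AlgebraicClosure K) × Chr K (AlgebraicClosure K) ℂ_[p] → ℕ)
    (A : Set (IntermediateField K (AlgebraicClosure K) × Chr K (AlgebraicClosure K) ℂ_[p]))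
    (X : ℕ) : ℝ :=
  {x | x ∈ A ∧ tame p K x.1 * e x ≤ X}.ncard

end Pool.Agent.Helper38.FW
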