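import Pool.Agent.Helper38.FW.MOMRV
import Pool.Agent.Helper13.PW.WAPX
import Pool.Agent.Helper32.PW.WSHF

/-!
# MP_fc6b1e_nt: the three moment theorems, without hypotheses
-/

set_option autoImplicit false

namespace Pool.Agent.Helper38.FW

open Pool.Agent.Helper42.PW

theorem v_apx : W_APX := Pool.Agent.Helper13.PW.w_apx n_trn a_grp

theorem v_mombv : MOMBV := a_mombv v_apx Pool.Agent.Helper32.PW.w_shf

theorem v_momb1v : MOMB1V := a_momb1v v_apx Pool.Agent.Helper32.PW.w_shf

theorem v_momrv : MOMRV := a_momrv v_apx Pool.Agent.Helper32.PW.w_shf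

end Pool.Agent.Helper38.FW
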