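import Pool.Agent.Helper38.FW.GoalsG
import Pool.Agent.Helper77.PPB.Goals2

/-!
# Project W: the final statement for all characters of order `p`, general weights
-/

set_option autoImplicit false

namespace Pool.Agent.Helper38.FW

open NumberField Polynomial Module IsDedekindDomain
open Pool.Agent.Helper51.RP Pool.Agent.Helper42.RD Pool.Agent.Helper42.PP Pool.Agent.Helper42.PP1
open Pool.Agent.Helper42.PB Pool.Agent.Helper11.PP Pool.Agent.Helper11.LE Pool.Agent.Helper42.PW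
open Pool.Agent.Helper38.FD (Chr CutsOut LeopoldtFor IsOrdinary)
open Pool.Agent.Helper77.PPB (ChN CompB)
open Pool.Agent.Helper51.SigLeo (IwasawaLog IsCMType)

/-- The `Σ`-Leopoldt statement holds for `χ₀ (ψ₀ φ)^i ψ`, `p` not dividing `i`, for all the characters `ψ` which cut
out a companion. -/
def GoodV {p : ℕ} [Fact p.Prime] {K : Type} [Field K] [NumberField K]
    (ιinf : AlgebraicClosure K →+* ℂ) (ιp : AlgebraicClosure K →+* ℂ_[p]) (Lg : IwasawaLog p ℂ_[p])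
    (S : Set (K →+* ℂ)) (M F₀ : IntermediateField K (AlgebraicClosure K))
    (χ₀ ψ₀ : Chr K (AlgebraicClosure K) ℂ_[p])
    (x : IntermediateField K (AlgebraicClosure K) × Chr K (AlgebraicClosure K) ℂ_[p]) : Prop :=
  ∀ (i : ℕ) (E : IntermediateField K (AlgebraicClosure K))
    (ψ : Chr K (AlgebraicClosure K) ℂ_[p]), ¬ p ∣ i →
    CompB p M F₀ x.1 E → CutsOut ψ E → LeopoldtFor ιinf ιp Lg S (χ₀ * (ψ₀ * x.2) ^ i * ψ)

/-- **W_DENG** (the final statement). As `B_DENN`, but: of `ψ₀ i` only `ψ₀ i ^ p` is trivial on the decomposition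
groups above `p`; the family `A` is any set of characters of order `p` given by local conditions above `p`, such
that at the places of `Σ_p` where `χ₀ i` is congruent to `ω` the character `ψ₀ i φ` is trivial; general weights. -/
def W_DENG : Prop :=
  ∀ (p : ℕ) [Fact p.Prime] (K : Type) [Field K] [NumberField K] (ιinf : AlgebraicClosure K →+* ℂ)
    (ιp : AlgebraicClosure K →+* ℂ_[p]) (Lg : IwasawaLog p ℂ_[p]) (ι : Type) [Nonempty ι] (n : ℕ)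
    (c : ι → Fin n) (S : ι → Set (K →+* ℂ))
    (M F₀ : ι → IntermediateField K (AlgebraicClosure K))
    (χ₀ ψ₀ : ι → Chr K (AlgebraicClosure K) ℂ_[p]),
    (∀ i, IsCMType (S i)) → (∀ i, IsOrdinary ιinf ιp (S i)) →
    (∀ i, FiniteDimensional K (M i)) → (∀ i, CutsOut (χ₀ i) (M i)) →
    (∀ i, (finrank K (M i)).Coprime p) →
    (∀ i, ∃ (g : AlgebraicClosure K ≃ₐ[K] AlgebraicClosure K) (r : ℕ),
      (∀ ξ : AlgebraicClosure K, ξ ^ p = 1 → g ξ = ξ ^ r) ∧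
      ‖((χ₀ i g : ℂ_[p]ˣ) : ℂ_[p]) - r‖ = 1) →
    (∀ i, CutsOut (ψ₀ i) (F₀ i)) → (∀ i, ∃ l : ℕ, finrank K (F₀ i) = p ^ l) →
    (∀ i, ∀ σ : K →+* ℂ_[p], DecT (ψ₀ i ^ p) σ) →
    (∀ i j, c i = c j → S i = S j ∧ (∃ r : ℕ, χ₀ i = χ₀ j ^ p ^ r) ∧ ψ₀ i = ψ₀ j) →
  ∀ θ : Fin n → ℝ, (∀ t, 0 ≤ θ t) →
    (∀ i, (M i = ⊥ ∧ 1 / ((p : ℝ) - 1) ≤ θ (c i)) ∨
      (M i ≠ ⊥ ∧ (p ^ 2 ≤ finrank K (F₀ i) ∨ ∀ ξ : AlgebraicClosure K, IsPrimitiveRoot ξ p →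
          ¬ M i ≤ IntermediateField.adjoin K {ξ}) ∧
        (p : ℝ) ^ orderOf (p : ZMod (finrank K (M i))) /
          (p * ((p : ℝ) ^ orderOf (p : ZMod (finrank K (M i))) - 1)) ≤ θ (c i)) ∨
      (M i ≠ ⊥ ∧ (∀ j : ℕ, ∃ (g : AlgebraicClosure K ≃ₐ[K] AlgebraicClosure K) (r : ℕ),
          (∀ ξ : AlgebraicClosure K, ξ ^ p = 1 → g ξ = ξ ^ r) ∧
          ‖((χ₀ i g : ℂ_[p]ˣ) : ℂ_[p]) ^ (1 + p ^ j) - r‖ = 1) ∧
        1 / ((p : ℝ) ^ orderOf (p : ZMod (finrank K (M i))) - 1) ≤ θ (c i))) →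
  ∀ A : Set (IntermediateField K (AlgebraicClosure K) × Chr K (AlgebraicClosure K) ℂ_[p]),
    LocC p K A →
    (∀ x ∈ A, ∀ i, ∀ σ ∈ TSet ιinf ιp (S i), DecT (ψ₀ i * x.2) σ ∨ NonOm (χ₀ i) σ) →
  ∀ e : IntermediateField K (AlgebraicClosure K) × Chr K (AlgebraicClosure K) ℂ_[p] → ℕ,
    LocE p K e →
  (∀ X : ℕ, {x | x ∈ ChN p K ∧ condP p K x.1 * e x ≤ X}.Finite) ∧
  (∀ η : ℝ, 0 < η → ∀ᶠ X : ℕ in Filter.atTop,
    cntE e {x | x ∈ A ∧ ∃ i, ¬ GoodV ιinf ιp Lg (S i) (M i) (F₀ i) (χ₀ i) (ψ₀ i) x} X ≤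
      (∑ r, θ r + η) * cntE e A X) ∧
  (∃ δ : ℝ, 0 < δ ∧ ∀ᶠ X : ℕ in Filter.atTop,
    0 < cntE e (ChN p K) X ∧ δ * cntE e (ChN p K) X ≤ cntE e A X)

end Pool.Agent.Helper38.FW
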