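import Pool.Agent.Helper38.FW.Main
import Pool.Agent.Helper38.FW.Mom
import Pool.Agent.Helper77.PW.DENG
import Pool.Agent.Helper77.PPB.Asm2
import Pool.Agent.Helper42.PW.Asm2
import Pool.Agent.Helper91.PPB.BNTV2
import Pool.Agent.Helper14.PW.WLDT
import Pool.Agent.Helper5.PW.WPRO

/-! The density theorem for all characters of order `p`. -/

namespace Pool.Agent.Helper38.FW

open NumberField Module Pool.Agent.Helper51.SigLeo Pool.Agent.Helper42.PW
open Pool.Agent.Helper38.FD (Chr)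

/-- **W_DENG**, proved. -/
theorem a_deng : W_DENG :=
  Pool.Agent.Helper77.PW.w_deng z_mombv z_momb1v v_momrv a_kumw a_dec
    Pool.Agent.Helper74.PPB.b_swt Pool.Agent.Helper58.PPB.b_ntv Pool.Agent.Helper91.PPB.b_ntv2
    Pool.Agent.Helper82.PPB.b_ku3 a_gl1 a_gl0 Pool.Agent.Helper77.PPL.d_map
    Pool.Agent.Helper39.PPB.b_chr Pool.Agent.Helper14.PW.w_ldt Pool.Agent.Helper5.PW.w_pro
    Pool.Agent.Helper32.FW.g_wt Pool.Agent.Helper49.FW.g_asm Pool.Agent.Helper22.RP.s_phi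
    Pool.Agent.Helper11.RP.s_nsp Pool.Agent.Helper20.RD.e_frb

theorem main_w (p : ℕ) [Fact p.Prime] (K : Type) [Field K]
    [NumberField K] (ιinf : AlgebraicClosure K →+* ℂ) (ιp : AlgebraicClosure K →+* ℂ_[p])
    (L : IwasawaLog p ℂ_[p]) (ι : Type) [Fintype ι] [Nonempty ι] (D : ι → BaseChr ιinf ιp)
    (A : Set (IntermediateField K (AlgebraicClosure K) × Chr K (AlgebraicClosure K) ℂ_[p]))
    (hA : IsLocal A) (hD : ∀ x ∈ A, ∀ i, (D i).Adm x)
    (e : IntermediateField K (AlgebraicClosure K) × Chr K (AlgebraicClosure K) ℂ_[p] → ℕ)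
    (he : IsWeight e) :
    (∀ X : ℕ, {x | x ∈ AllChr p K ∧ tame p K x.1 * e x ≤ X}.Finite) ∧
    (∀ η : ℝ, 0 < η → ∀ᶠ X : ℕ in Filter.atTop,
      countChr e {x | x ∈ A ∧ ∃ i, ¬ (D i).Good L x} X ≤
        (∑ i, (D i).theta + η) * countChr e A X) ∧
    (∃ δ : ℝ, 0 < δ ∧ ∀ᶠ X : ℕ in Filter.atTop,
      0 < countChr e (AllChr p K) X ∧ δ * countChr e (AllChr p K) X ≤ countChr e A X) :=
  main_w' a_deng p K ιinf ιp L ι D A hA hD e he

end Pool.Agent.Helper38.FW
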