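import Pool.Agent.Helper42.PW.Goals5

/-!
# Project W, general weights: from classes to characters

The pairs `(N, φ)` are ordered by `condP p K N * e (N, φ)`, where `e ≥ 1` depends only on the restrictions of `φ`
to the decomposition groups above `p`.
-/

set_option autoImplicit false

namespace Pool.Agent.Helper38.FW

open NumberField Polynomial Module IsDedekindDomain
open Pool.Agent.Helper51.RP Pool.Agent.Helper42.RD Pool.Agent.Helper42.PP Pool.Agent.Helper42.PP1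
open Pool.Agent.Helper42.PB Pool.Agent.Helper11.PP Pool.Agent.Helper11.LE Pool.Agent.Helper42.PW
open Pool.Agent.Helper38.FD (Chr CutsOut)
open Pool.Agent.Helper77.PPB (ChN)

/-- The product of the norms of the primes of `K` which are ramified in `N` and not above `p`. -/
noncomputable def condP (p : ℕ) (K N : Type) [Field K] [NumberField K] [Field N] [Algebra K N] :
    ℕ :=
  ∏ᶠ (v : HeightOneSpectrum (𝓞 K)) (_ : RamIn N v ∧ (p : 𝓞 K) ∉ v.asIdeal),
    Ideal.absNorm v.asIdeal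

/-- The function `e` on the pairs `(N, φ)` has values `≥ 1` and depends only on the restrictions of `φ` to the
decomposition groups above `p`. -/
structure LocE (p : ℕ) [Fact p.Prime] (K : Type) [Field K] [NumberField K]
    (e : IntermediateField K (AlgebraicClosure K) × Chr K (AlgebraicClosure K) ℂ_[p] → ℕ) :
    Prop where
  one_le : ∀ x, 1 ≤ e x
  loc : ∀ x ∈ ChN p K, ∀ y ∈ ChN p K, (∀ σ : K →+* ℂ_[p], DecT (x.2 * y.2⁻¹) σ) → e x = e y

/-- The number of the pairs `(N, φ)` in `A` with `condP p K N * e (N, φ) ≤ X`. -/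
noncomputable def cntE {p : ℕ} [Fact p.Prime] {K : Type} [Field K] [NumberField K]
    (e : IntermediateField K (AlgebraicClosure K) × Chr K (AlgebraicClosure K) ℂ_[p] → ℕ)
    (A : Set (IntermediateField K (AlgebraicClosure K) × Chr K (AlgebraicClosure K) ℂ_[p]))
    (X : ℕ) : ℝ :=
  {x | x ∈ A ∧ condP p K x.1 * e x ≤ X}.ncard

/-- **G_WT** (the weight functions).

PROOF (from `D_TAM` (proved), `W_LDT`). Call the classes `c`, `c'` of type `ω` equivalent if `c = clp a`, `c' = clp a'` with `a`,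
`a'` of type `ω` and `LocS p (up K₁ Sp) (a/a')` (an equivalence relation on the classes of type `ω`: products and
quotients of `LocS`, `p`-th powers are `LocS`). Let `e' c = e (nf c', cf c')` for some (chosen) `c' ∈ BSet` equivalent to
`c`, if there is one, and `e' c = 1` otherwise; `f c = condS K Sp c · e' c`. If `c'`, `c'' ∈ BSet` are both equivalent to
`c`, then they are equivalent to each other and by `W_LDT` (`up K₁ Sp` is the set of the primes of `K₁` above `p`)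
`DecT (cf c' * (cf c'')⁻¹) σ` for all `σ`, so `e (nf c', cf c') = e (nf c'', cf c'')` by `LocE.loc`: the choice does not
matter, `e'` is constant on equivalence classes, and `e' c = e (nf c, cf c)` for `c ∈ BSet`. `condS K Sp c = condP p K (nf c)` for
`c ∈ BSet` by `D_TAM`, as in `W_RAM` (the part `v ∉ Sp`). -/
def G_WT : Prop :=
  W_LDT → ∀ (p : ℕ) [Fact p.Prime] (K K₁ : Type) [Field K] [NumberField K] [Field K₁]
    [NumberField K₁]
    [Algebra K K₁] (ε : K₁), Cyc p K K₁ ε → ∀ (j : K₁ →+* AlgebraicClosure K),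
    (∀ x : K, j (algebraMap K K₁ x) = algebraMap K (AlgebraicClosure K) x) →
  ∀ εk : ℂ_[p]ˣ, IsPrimitiveRoot εk p →
  ∀ (nf : ClP p K₁ → IntermediateField K (AlgebraicClosure K))
    (cf : ClP p K₁ → Chr K (AlgebraicClosure K) ℂ_[p]),
    (∀ c ∈ BSet p K ε, nf c ∈ CycN p K ∧ ∀ a : K₁ˣ, clp p a = c → Gen p j a (nf c)) →
    (∀ c ∈ BSet p K ε, CutsOut (cf c) (nf c) ∧ ∀ a : K₁ˣ, clp p a = c →
      ∀ s : AlgebraicClosure K, s ^ p = j (a : K₁) →
      ∀ g : AlgebraicClosure K ≃ₐ[K] AlgebraicClosure K, (∀ x : K₁, g (j x) = j x) → ∀ i : ℕ,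
        g s = j ε ^ i * s → cf c g = εk ^ i) →
  ∀ Sp : Finset (HeightOneSpectrum (𝓞 K)), (∀ v, v ∈ Sp ↔ v.valuation K (p : K) < 1) →
  ∀ e : IntermediateField K (AlgebraicClosure K) × Chr K (AlgebraicClosure K) ℂ_[p] → ℕ,
    LocE p K e →
  ∃ f : ClP p K₁ → ℕ, IsWt p K ε Sp f ∧
    ∀ c ∈ BSet p K ε, f c = condP p K (nf c) * e (nf c, cf c)

/-- **G_ASM** (from classes to characters; `W_ASM` for general weights).

PROOF. That of `W_ASM`, with the weight function `f` of `G_WT` in the place of that of `W_RAM`. -/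
def G_ASM : Prop :=
  W_LDT → W_PRO → G_WT → ∀ (p : ℕ) [Fact p.Prime] (K K₁ : Type) [Field K] [NumberField K]
    [Field K₁] [NumberField K₁]
    [Algebra K K₁] (ε : K₁), Cyc p K K₁ ε → ∀ (j : K₁ →+* AlgebraicClosure K),
    (∀ x : K, j (algebraMap K K₁ x) = algebraMap K (AlgebraicClosure K) x) →
  ∀ εk : ℂ_[p]ˣ, IsPrimitiveRoot εk p →
  ∀ (nf : ClP p K₁ → IntermediateField K (AlgebraicClosure K))
    (cf : ClP p K₁ → Chr K (AlgebraicClosure K) ℂ_[p]),
    (∀ c ∈ BSet p K ε, nf c ∈ CycN p K ∧ ∀ a : K₁ˣ, clp p a = c → Gen p j a (nf c)) →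
    (∀ c ∈ BSet p K ε, (c ∈ ASet p K ε ↔ nf c ∈ CycF p K)) →
    (∀ c ∈ BSet p K ε, CutsOut (cf c) (nf c) ∧ ∀ a : K₁ˣ, clp p a = c →
      ∀ s : AlgebraicClosure K, s ^ p = j (a : K₁) →
      ∀ g : AlgebraicClosure K ≃ₐ[K] AlgebraicClosure K, (∀ x : K₁, g (j x) = j x) → ∀ i : ℕ,
        g s = j ε ^ i * s → cf c g = εk ^ i) →
    (∀ N ∈ CycN p K, ∀ φ : Chr K (AlgebraicClosure K) ℂ_[p], CutsOut φ N →
      ∃! c, c ∈ BSet p K ε ∧ nf c = N ∧ cf c = φ) →
  ∀ A : Set (IntermediateField K (AlgebraicClosure K) × Chr K (AlgebraicClosure K) ℂ_[p]),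
    LocC p K A →
  ∀ e : IntermediateField K (AlgebraicClosure K) × Chr K (AlgebraicClosure K) ℂ_[p] → ℕ,
    LocE p K e →
  ∀ (n : ℕ) (Bd : Fin n → Set (ClP p K₁))
    (G : Set (IntermediateField K (AlgebraicClosure K) × Chr K (AlgebraicClosure K) ℂ_[p]))
    (Z : Set (ClP p K₁)) (θ : Fin n → ℝ), (∀ r, 0 ≤ θ r) → Z.Finite →
    (∀ c ∈ BSet p K ε, (nf c, cf c) ∈ A → c ∉ Z → (nf c, cf c) ∉ G → ∃ r, c ∈ Bd r) →
    (∀ r, MomA p K ε (Bd r) (θ r)) → MomA p K ε ∅ 0 →
  (∀ X : ℕ, {x | x ∈ ChN p K ∧ condP p K x.1 * e x ≤ X}.Finite) ∧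
  (∀ η : ℝ, 0 < η → ∀ᶠ X : ℕ in Filter.atTop,
    cntE e {x | x ∈ A ∧ x ∉ G} X ≤ (∑ r, θ r + η) * cntE e A X) ∧
  (∃ c : ℝ, 0 < c ∧ ∀ᶠ X : ℕ in Filter.atTop,
    0 < cntE e (ChN p K) X ∧ c * cntE e (ChN p K) X ≤ cntE e A X)

end Pool.Agent.Helper38.FW
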