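import Pool.Agent.Helper38.FW.Norm
import Pool.Agent.Helper38.FW.GoalsD
import Pool.Agent.Helper77.PPB.Cls0

/-! The density theorem for all characters of order `p`: the readable form from `W_DENG`. -/

namespace Pool.Agent.Helper38.FW

open NumberField Module IsDedekindDomain Pool.Agent.Helper51.SigLeo Pool.Agent.Helper11.PP
open Pool.Agent.Helper38.FD (Chr CutsOut LeopoldtFor IsOrdinary isGalois_of_cutsOut splits_of_free)
open Pool.Agent.Helper77.PPB (CompB ChN splits_bot unram_of_splits)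
open Pool.Agent.Helper42.PW (DecT NonOm LocC)
open Pool.Agent.Helper42.RD (TSet)

variable {p : ℕ} [Fact p.Prime] {K : Type} [Field K] [NumberField K]

theorem decT_iff (χ : Chr K (AlgebraicClosure K) ℂ_[p]) :
    (∀ σ : K →+* ℂ_[p], DecT χ σ) ↔ ∀ (τ : AlgebraicClosure K →+* ℂ_[p])
      (g : AlgebraicClosure K ≃ₐ[K] AlgebraicClosure K), InDec τ g → χ g = 1 :=
  ⟨fun h τ g hg ↦ h (τ.comp (algebraMap K (AlgebraicClosure K))) τ rfl g hg,
    fun h _ τ _ g hg ↦ h τ g hg⟩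

theorem sameAt_iff (φ φ' : Chr K (AlgebraicClosure K) ℂ_[p]) :
    (∀ σ : K →+* ℂ_[p], DecT (φ * φ'⁻¹) σ) ↔ ∀ (τ : AlgebraicClosure K →+* ℂ_[p])
      (g : AlgebraicClosure K ≃ₐ[K] AlgebraicClosure K), InDec τ g → φ g = φ' g := by
  rw [decT_iff]
  refine forall₃_congr fun τ g _ ↦ ?_
  rw [MonoidHom.mul_apply, MonoidHom.inv_apply, mul_inv_eq_one]

theorem allChr_eq : AllChr p K = ChN p K := by
  ext x
  refine ⟨fun h ↦ ⟨⟨h.1, isGalois_of_cutsOut h.2⟩, h.2⟩, fun h ↦ ⟨h.1.1, h.2⟩⟩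

theorem ramIn_iff (N : Type) [Field N] [Algebra K N] (v : HeightOneSpectrum (𝓞 K)) :
    RamIn N v ↔ ∃ V : HeightOneSpectrum (𝓞 N),
      v.asIdeal.map (algebraMap (𝓞 K) (𝓞 N)) ≤ V.asIdeal ^ 2 := by
  refine ⟨fun ⟨V, _, h⟩ ↦ ⟨V, h⟩, fun ⟨V, h⟩ ↦ ⟨V, ?_, h⟩⟩
  have h1 : v.asIdeal ≤ V.asIdeal.comap (algebraMap (𝓞 K) (𝓞 N)) :=
    Ideal.map_le_iff_le_comap.1 (h.trans (Ideal.pow_le_self two_ne_zero))
  have h2 : (V.asIdeal.comap (algebraMap (𝓞 K) (𝓞 N))).IsPrime := V.isPrime.comap _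
  exact (v.isMaximal.eq_of_le h2.ne_top h1).symm

theorem tame_eq (N : Type) [Field N] [Algebra K N] : tame p K N = condP p K N := by
  unfold tame condP
  refine finprod_congr fun v ↦ finprod_congr_Prop ?_ fun _ ↦ rfl
  rw [ramIn_iff N v, and_comm]

theorem comp_bot (M F N : IntermediateField K (AlgebraicClosure K)) :
    CompB p M F N (⊥ : IntermediateField K (AlgebraicClosure K)) := by
  have : NumberField (⊥ : IntermediateField K (AlgebraicClosure K)) :=
    NumberField.of_module_finite K _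
  have hs : ∀ v : HeightOneSpectrum (𝓞 K),
      SplitsIn (finrank K (⊥ : IntermediateField K (AlgebraicClosure K)))
        (⊥ : IntermediateField K (AlgebraicClosure K)) v := fun v ↦ by
    obtain ⟨w, hw, hf⟩ := splits_bot v
    exact splits_of_free v w hw hf
  exact ⟨⟨0, by rw [IntermediateField.finrank_bot, pow_zero]⟩, fun v _ ↦ hs v,
    fun v _ ↦ unram_of_splits v (hs v)⟩

theorem cutsOut_one : CutsOut (1 : Chr K (AlgebraicClosure K) ℂ_[p])
    (⊥ : IntermediateField K (AlgebraicClosure K)) := by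
  refine fun g ↦ ⟨fun _ x hx ↦ ?_, fun _ ↦ rfl⟩
  obtain ⟨y, rfl⟩ := IntermediateField.mem_bot.1 hx
  exact g.commutes y

theorem orderOf_zmod {p m : ℕ} (hm : 0 < m) (hc : m.Coprime p) (hp : 0 < p) :
    orderOf (p : ZMod m) = sInf {f : ℕ | 0 < f ∧ m ∣ p ^ f - 1} := by
  have : NeZero m := ⟨hm.ne'⟩
  have h1 : ∀ f : ℕ, (p : ZMod m) ^ f = 1 ↔ m ∣ p ^ f - 1 := by
    intro f
    rw [← ZMod.natCast_eq_zero_iff, Nat.cast_sub (Nat.one_le_pow f p hp), Nat.cast_pow,
      Nat.cast_one, sub_eq_zero]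
  have ho : 0 < orderOf (p : ZMod m) := by
    obtain ⟨u, hu⟩ := (ZMod.isUnit_iff_coprime p m).2 hc.symm
    rw [← hu, orderOf_units]
    exact orderOf_pos u
  have hmem : orderOf (p : ZMod m) ∈ {f : ℕ | 0 < f ∧ m ∣ p ^ f - 1} :=
    ⟨ho, (h1 _).1 (pow_orderOf_eq_one _)⟩
  refine le_antisymm ?_ (Nat.sInf_le hmem)
  obtain ⟨h2, h3⟩ := Nat.sInf_mem ⟨_, hmem⟩
  exact orderOf_le_of_pow_eq_one h2 ((h1 _).2 h3)

theorem q_eq {ιinf : AlgebraicClosure K →+* ℂ} {ιp : AlgebraicClosure K →+* ℂ_[p]}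
    (D : BaseChr ιinf ιp) [FiniteDimensional K D.M] :
    (D.Q : ℝ) = (p : ℝ) ^ orderOf (p : ZMod (finrank K D.M)) := by
  unfold BaseChr.Q
  rw [orderOf_zmod finrank_pos D.coprime (Fact.out : p.Prime).pos, Nat.cast_pow]

theorem main_w' (h : W_DENG) (p : ℕ) [Fact p.Prime] (K : Type) [Field K]
    [NumberField K] (ιinf : AlgebraicClosure K →+* ℂ) (ιp : AlgebraicClosure K →+* ℂ_[p])
    (L : IwasawaLog p ℂ_[p]) (ι : Type) [Fintype ι] [Nonempty ι] (D : ι → BaseChr ιinf ιp)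
    (A : Set (IntermediateField K (AlgebraicClosure K) × Chr K (AlgebraicClosure K) ℂ_[p]))
    (hA : IsLocal A) (hD : ∀ x ∈ A, ∀ i, (D i).Adm x)
    (e : IntermediateField K (AlgebraicClosure K) × Chr K (AlgebraicClosure K) ℂ_[p] → ℕ)
    (he : IsWeight e) :
    (∀ X : ℕ, {x | x ∈ AllChr p K ∧ tame p K x.1 * e x ≤ X}.Finite) ∧
    (∀ η : ℝ, 0 < η → ∀ᶠ X : ℕ in Filter.atTop,
      countChr e {x | x ∈ A ∧ ∃ i, ¬ (D i).Good L x} X ≤
        (∑ i, (D i).theta + η) * countChr e A X) ∧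
    (∃ δ : ℝ, 0 < δ ∧ ∀ᶠ X : ℕ in Filter.atTop,
      0 < countChr e (AllChr p K) X ∧ δ * countChr e (AllChr p K) X ≤ countChr e A X) := by
  classical
  have hp : p.Prime := Fact.out
  have hfin : ∀ i, FiniteDimensional K (D i).M := fun i ↦
    FiniteDimensional.of_finrank_pos (Nat.pos_of_ne_zero fun h0 ↦ by
      have := (D i).coprime
      rw [h0, Nat.coprime_zero_left] at this
      exact hp.one_lt.ne' this)
  set ee := Fintype.equivFin ι with hee
  have hp1 : (1 : ℝ) < p := by exact_mod_cast hp.one_lt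
  have hQ : ∀ i, (p : ℝ) ≤ (p : ℝ) ^ orderOf (p : ZMod (finrank K (D i).M)) := by
    intro i
    have := hfin i
    have : NeZero (finrank K (D i).M) := ⟨finrank_pos.ne'⟩
    have hu : IsUnit ((p : ℕ) : ZMod (finrank K (D i).M)) :=
      (ZMod.isUnit_iff_coprime p _).2 (D i).coprime.symm
    obtain ⟨u, hu⟩ := hu
    have ho : 0 < orderOf (p : ZMod (finrank K (D i).M)) := by
      rw [← hu, orderOf_units]
      exact orderOf_pos u
    calc (p : ℝ) = (p : ℝ) ^ 1 := (pow_one _).symm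
      _ ≤ _ := pow_le_pow_right₀ hp1.le ho
  have hθ0 : ∀ i, 0 ≤ (D i).theta := by
    intro i
    have h1 := hQ i
    have := hfin i
    unfold BaseChr.theta
    rw [q_eq]
    split_ifs
    · exact div_nonneg (by linarith) (mul_nonneg (by linarith) (by linarith))
    · exact div_nonneg zero_le_one (by linarith)
  have hcnt : ∀ B X, countChr e B X = cntE e B X := fun B X ↦ by
    unfold countChr cntE
    simp only [tame_eq]
  simp only [hcnt, tame_eq, allChr_eq]
  obtain ⟨i₀⟩ := ‹Nonempty ι›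
  obtain ⟨h1, h2, h3⟩ := h p K ιinf ιp L (ι × ℕ) (Fintype.card ι) (fun x ↦ ee x.1)
    (fun x ↦ (D x.1).S) (fun x ↦ (D x.1).M) (fun x ↦ (D x.1).F)
    (fun x ↦ (D x.1).χ ^ p ^ x.2) (fun x ↦ (D x.1).ψ)
    (fun x ↦ (D x.1).isCMType) (fun x ↦ (D x.1).isOrdinary) (fun x ↦ hfin x.1)
    (fun x ↦ by have := hfin x.1; exact cutsOut_pow (D x.1).cutsOutM (D x.1).coprime x.2)
    (fun x ↦ (D x.1).coprime)
    (fun x ↦ by
      have := hfin x.1
      obtain ⟨g, r, h1, h2⟩ := not_isOmega (D x.1).not_omega (norm_chr (D x.1).cutsOutM)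
      refine ⟨g, r, h1, ?_⟩
      rw [MonoidHom.pow_apply, Units.val_pow_eq_pow_val]
      exact norm_frob_pow (norm_chr (D x.1).cutsOutM g).le r x.2 h2)
    (fun x ↦ (D x.1).cutsOutF) (fun x ↦ (D x.1).degree)
    (fun x ↦ (decT_iff _).2 fun τ g hg ↦ by
      rw [MonoidHom.pow_apply]; exact (D x.1).split τ g hg)
    (fun x y hxy ↦ by
      have hxy : x.1 = y.1 := ee.injective hxy
      obtain ⟨i, r⟩ := x
      obtain ⟨j, s⟩ := y
      simp only at hxy
      subst hxy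
      have := hfin i
      exact ⟨rfl, pow_class (D i).cutsOutM (D i).coprime r s, rfl⟩)
    (fun t ↦ (D (ee.symm t)).theta) (fun t ↦ hθ0 _)
    (fun x ↦ by
      obtain ⟨i, s⟩ := x
      have := hfin i
      simp only [Equiv.symm_apply_apply]
      by_cases hM : (D i).M = ⊥
      · refine Or.inl ⟨hM, ?_⟩
        have h5 : finrank K (D i).M = 1 := by rw [hM, IntermediateField.finrank_bot]
        have h6 : orderOf (p : ZMod (finrank K (D i).M)) = 1 := by
          rw [orderOf_eq_one_iff]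
          rw [h5]
          exact Subsingleton.elim _ _
        unfold BaseChr.theta
        rw [q_eq, h6, pow_one]
        split_ifs
        · rw [div_le_div_iff₀ (by linarith) (by nlinarith)]
          nlinarith
        · exact le_rfl
      · by_cases hj : ∃ j : ℕ, IsOmega ((D i).χ ^ (1 + p ^ j))
        · refine Or.inr (Or.inl ⟨hM, (D i).large hj, ?_⟩)
          unfold BaseChr.theta
          rw [if_pos hj, q_eq]
        · refine Or.inr (Or.inr ⟨hM, fun j ↦ ?_, ?_⟩)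
          · have h7 : ¬ IsOmega ((D i).χ ^ (1 + p ^ j)) := fun h8 ↦ hj ⟨j, h8⟩
            have h9 : ∀ g, ‖((((D i).χ ^ (1 + p ^ j)) g : ℂ_[p]ˣ) : ℂ_[p])‖ = 1 := fun g ↦ by
              rw [MonoidHom.pow_apply, Units.val_pow_eq_pow_val, norm_pow,
                norm_chr (D i).cutsOutM g, one_pow]
            obtain ⟨g, r, h10, h11⟩ := not_isOmega h7 h9
            refine ⟨g, r, h10, ?_⟩
            have h12 := norm_frob_pow (h9 g).le r s h11
            rw [MonoidHom.pow_apply, Units.val_pow_eq_pow_val, ← pow_mul] at h12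
            rw [MonoidHom.pow_apply, Units.val_pow_eq_pow_val, ← pow_mul, mul_comm]
            exact h12
          · unfold BaseChr.theta
            rw [if_neg hj, q_eq])
    A ⟨allChr_eq (p := p) (K := K) ▸ hA.subset, hA.nonempty, fun x hx y hy hxy ↦
      hA.same x hx y (by rw [allChr_eq]; exact hy) ((sameAt_iff _ _).1 hxy)⟩
    (fun x hx y σ hσ ↦ by
      obtain ⟨i, s⟩ := y
      have := hfin i
      obtain ⟨s', hs', rfl⟩ := hσ
      rcases hD x hx i s' hs' with h4 | h4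
      · right
        intro τ hτ
        obtain ⟨g, hg, hg'⟩ := h4 τ hτ
        obtain ⟨r, h5, h6⟩ := not_omegaAt hg' (norm_chr (D i).cutsOutM g)
        refine ⟨g, r, hg, h5, ?_⟩
        rw [MonoidHom.pow_apply, Units.val_pow_eq_pow_val]
        exact norm_frob_pow (norm_chr (D i).cutsOutM g).le r s h6
      · left
        intro τ hτ g hg
        rw [MonoidHom.mul_apply]
        exact h4 τ hτ g hg)
    e ⟨he.one_le, fun x hx y hy hxy ↦ he.same x (by rw [allChr_eq]; exact hx) y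
      (by rw [allChr_eq]; exact hy) ((sameAt_iff _ _).1 hxy)⟩
  have hsum : ∑ t, (D (ee.symm t)).theta = ∑ i, (D i).theta :=
    Equiv.sum_comp ee.symm fun i ↦ (D i).theta
  have hG : ∀ x i, (∀ s : ℕ, GoodV ιinf ιp L (D i).S (D i).M (D i).F
      ((D i).χ ^ p ^ s) (D i).ψ x) → (D i).Good L x := by
    intro x i hg r s hs
    have h1 := hg r s ⊥ 1 hs (comp_bot _ _ _) cutsOut_one
    have h4 : (D i).χ ^ p ^ r * ((D i).ψ * x.2) ^ s * 1 =
        (D i).χ ^ p ^ r * ((D i).ψ * x.2) ^ s := by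
      refine MonoidHom.ext fun g ↦ ?_
      rw [MonoidHom.mul_apply _ 1, MonoidHom.one_apply]
      exact mul_one _
    rw [h4] at h1
    exact h1
  refine ⟨h1, fun η hη ↦ ?_, h3⟩
  filter_upwards [h2 η hη] with X hX
  rw [hsum] at hX
  refine le_trans (Nat.cast_le.2 (Set.ncard_le_ncard ?_ ?_)) hX
  · rintro x ⟨⟨ha, i, hb⟩, hx⟩
    refine ⟨⟨ha, ?_⟩, hx⟩
    by_contra hcon
    push Not at hcon
    exact hb (hG x i fun s ↦ hcon (i, s))
  · refine (h1 X).subset ?_
    rintro x ⟨⟨ha, -⟩, hx⟩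
    exact ⟨allChr_eq (p := p) (K := K) ▸ hA.subset ha, hx⟩

end Pool.Agent.Helper38.FW
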