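import Pool.Agent.Helper38.FW.Defs
import Pool.Agent.Helper38.FD.Twist

/-! Norms of the values of characters in `ℂ_p`. -/

namespace Pool.Agent.Helper38.FW

open NumberField Module IsDedekindDomain Pool.Agent.Helper51.SigLeo
  Pool.Agent.Helper38.FD

section norm

variable {p : ℕ} [Fact p.Prime]

/-- The elements of norm at most `1`. -/
def ballR (p : ℕ) [Fact p.Prime] : Subring ℂ_[p] where
  carrier := {x | ‖x‖ ≤ 1}
  zero_mem' := by simp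
  one_mem' := by simp
  add_mem' := fun {a b} ha hb ↦ (IsUltrametricDist.norm_add_le_max a b).trans (max_le ha hb)
  mul_mem' := fun {a b} ha hb ↦ by
    simp only [Set.mem_setOf_eq, norm_mul] at *
    exact mul_le_one₀ ha (norm_nonneg _) hb
  neg_mem' := fun {a} ha ↦ by simpa using ha

theorem norm_nat_le (r : ℕ) : ‖(r : ℂ_[p])‖ ≤ 1 := by
  have := natCast_mem (ballR p) r
  exact this

theorem norm_p_lt : ‖(p : ℂ_[p])‖ < 1 := by
  have h : ‖(algebraMap ℚ_[p] ℂ_[p] (p : ℚ_[p]))‖ = ‖(p : ℚ_[p])‖ := norm_algebraMap' _ _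
  rw [map_natCast] at h
  rw [h]
  exact Padic.norm_p_lt_one

/-- `x^p - y^p ≡ (x - y)^p` modulo `p`. -/
theorem norm_pow_sub (x y : ballR p) :
    ‖((x : ℂ_[p]) - y) ^ p - ((x : ℂ_[p]) ^ p - (y : ℂ_[p]) ^ p)‖ < 1 := by
  obtain ⟨r, hr⟩ := exists_add_pow_prime_eq (Fact.out : p.Prime) (x - y) y
  have h1 : (x : ℂ_[p]) ^ p = ((x : ℂ_[p]) - y) ^ p + (y : ℂ_[p]) ^ p +
      p * ((x : ℂ_[p]) - y) * y * r := by
    have := congrArg (Subtype.val : ballR p → ℂ_[p]) hr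
    push_cast at this
    rw [sub_add_cancel] at this
    exact this
  have h2 : ((x : ℂ_[p]) - y) ^ p - ((x : ℂ_[p]) ^ p - (y : ℂ_[p]) ^ p) =
      -(p * (((x - y) * y * r : ballR p) : ℂ_[p])) := by
    rw [h1]; push_cast; ring
  rw [h2, norm_neg, norm_mul]
  exact mul_lt_one_of_nonneg_of_lt_one_left (norm_nonneg _) norm_p_lt
    ((x - y) * y * r : ballR p).2

theorem norm_pow_nat (r : ℕ) : ‖(r : ℂ_[p]) ^ p - r‖ < 1 := by
  have h1 : ((p : ℤ) : ℤ) ∣ (r : ℤ) ^ p - r := by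
    have : ((((r : ℤ) ^ p - r : ℤ)) : ZMod p) = 0 := by
      push_cast
      rw [ZMod.pow_card, sub_self]
    exact (ZMod.intCast_zmod_eq_zero_iff_dvd _ _).1 this
  obtain ⟨c, hc⟩ := h1
  have h2 : (r : ℂ_[p]) ^ p - r = p * (c : ℂ_[p]) := by exact_mod_cast congrArg (Int.cast : ℤ → ℂ_[p]) hc
  rw [h2, norm_mul]
  refine mul_lt_one_of_nonneg_of_lt_one_left (norm_nonneg _) norm_p_lt ?_
  exact intCast_mem (ballR p) c

/-- Frobenius. -/
theorem norm_frob {x : ℂ_[p]} (hx : ‖x‖ ≤ 1) (r : ℕ) (h : ‖x - r‖ = 1) : ‖x ^ p - r‖ = 1 := by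
  have h1 := norm_pow_sub (p := p) ⟨x, hx⟩ ⟨(r : ℂ_[p]), norm_nat_le r⟩
  have h2 := norm_pow_nat (p := p) r
  simp only at h1
  have h3 : ‖(x - r) ^ p‖ = 1 := by rw [norm_pow, h, one_pow]
  have h4 : x ^ p - r = (x - r) ^ p + (-((x - r) ^ p - (x ^ p - (r : ℂ_[p]) ^ p)) +
      ((r : ℂ_[p]) ^ p - r)) := by ring
  have h5 : ‖-((x - r) ^ p - (x ^ p - (r : ℂ_[p]) ^ p)) + ((r : ℂ_[p]) ^ p - r)‖ < 1 := by
    refine (IsUltrametricDist.norm_add_le_max _ _).trans_lt (max_lt ?_ h2)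
    rwa [norm_neg]
  rw [h4, IsUltrametricDist.norm_add_eq_max_of_norm_ne_norm (by rw [h3]; exact h5.ne'), h3]
  exact max_eq_left h5.le

theorem norm_frob_pow {x : ℂ_[p]} (hx : ‖x‖ ≤ 1) (r s : ℕ) (h : ‖x - r‖ = 1) :
    ‖x ^ p ^ s - r‖ = 1 := by
  induction s with
  | zero => simpa using h
  | succ s ih =>
    rw [pow_succ, pow_mul]
    exact norm_frob (by rw [norm_pow]; exact pow_le_one₀ (norm_nonneg _) hx) r ih

end norm

section chr

variable {p : ℕ} [Fact p.Prime] {K : Type} [Field K] [NumberField K]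

theorem norm_chr {χ : Chr K (AlgebraicClosure K) ℂ_[p]} {M : IntermediateField K (AlgebraicClosure K)}
    [FiniteDimensional K M] (h : CutsOut χ M) (g : AlgebraicClosure K ≃ₐ[K] AlgebraicClosure K) :
    ‖((χ g : ℂ_[p]ˣ) : ℂ_[p])‖ = 1 := by
  have h1 := pow_card_desc h g
  have h2 : ((χ g : ℂ_[p]ˣ) : ℂ_[p]) ^ finrank K M = 1 := by
    rw [← Units.val_pow_eq_pow_val, h1, Units.val_one]
  have h3 : ‖((χ g : ℂ_[p]ˣ) : ℂ_[p])‖ ^ finrank K M = 1 := by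
    rw [← norm_pow, h2, norm_one]
  exact (pow_eq_one_iff_of_nonneg (norm_nonneg _) finrank_pos.ne').1 h3

/-- Not congruent to `ω` at `g`. -/
theorem not_omegaAt {χ : Chr K (AlgebraicClosure K) ℂ_[p]}
    {g : AlgebraicClosure K ≃ₐ[K] AlgebraicClosure K} (h : ¬ OmegaAt χ g)
    (hχ : ‖((χ g : ℂ_[p]ˣ) : ℂ_[p])‖ = 1) :
    ∃ r : ℕ, (∀ ξ : AlgebraicClosure K, ξ ^ p = 1 → g ξ = ξ ^ r) ∧
      ‖((χ g : ℂ_[p]ˣ) : ℂ_[p]) - r‖ = 1 := by
  unfold OmegaAt at h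
  push Not at h
  obtain ⟨r, h1, h2⟩ := h
  refine ⟨r, h1, le_antisymm ?_ h2⟩
  rw [sub_eq_add_neg]
  refine (IsUltrametricDist.norm_add_le_max _ _).trans (max_le hχ.le ?_)
  rw [norm_neg]
  exact norm_nat_le r

/-- Not congruent to `ω`. -/
theorem not_isOmega {χ : Chr K (AlgebraicClosure K) ℂ_[p]} (h : ¬ IsOmega χ)
    (hχ : ∀ g, ‖((χ g : ℂ_[p]ˣ) : ℂ_[p])‖ = 1) :
    ∃ (g : AlgebraicClosure K ≃ₐ[K] AlgebraicClosure K) (r : ℕ),
      (∀ ξ : AlgebraicClosure K, ξ ^ p = 1 → g ξ = ξ ^ r) ∧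
      ‖((χ g : ℂ_[p]ˣ) : ℂ_[p]) - r‖ = 1 := by
  unfold IsOmega at h
  push Not at h
  obtain ⟨g, hg⟩ := h
  obtain ⟨r, h1, h2⟩ := not_omegaAt hg (hχ g)
  exact ⟨g, r, h1, h2⟩

theorem cutsOut_pow {χ : Chr K (AlgebraicClosure K) ℂ_[p]}
    {M : IntermediateField K (AlgebraicClosure K)} [FiniteDimensional K M] (h : CutsOut χ M)
    (hc : (finrank K M).Coprime p) (s : ℕ) : CutsOut (χ ^ p ^ s) M := by
  intro g
  rw [← h g, MonoidHom.pow_apply]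
  refine ⟨fun h1 ↦ ?_, fun h1 ↦ by rw [h1, one_pow]⟩
  have h2 := pow_card_desc h g
  have h3 : orderOf (χ g) ∣ Nat.gcd (finrank K M) (p ^ s) :=
    Nat.dvd_gcd (orderOf_dvd_of_pow_eq_one h2) (orderOf_dvd_of_pow_eq_one h1)
  rw [(Nat.Coprime.pow_right s hc : Nat.gcd _ _ = 1), Nat.dvd_one, orderOf_eq_one_iff] at h3
  exact h3

theorem pow_class {χ : Chr K (AlgebraicClosure K) ℂ_[p]}
    {M : IntermediateField K (AlgebraicClosure K)} [FiniteDimensional K M] (h : CutsOut χ M)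
    (hc : (finrank K M).Coprime p) (r s : ℕ) :
    ∃ t : ℕ, χ ^ p ^ r = (χ ^ p ^ s) ^ p ^ t := by
  have hu : IsUnit ((p : ℕ) : ZMod (finrank K M)) := (ZMod.isUnit_iff_coprime p _).2 hc.symm
  have : NeZero (finrank K M) := ⟨finrank_pos.ne'⟩
  obtain ⟨u, hu⟩ := hu
  have ho : 0 < orderOf u := orderOf_pos u
  set f := orderOf u with hf
  -- `t = r + s (f - 1)`, `s + t = r + s f`
  refine ⟨r + s * (f - 1), ?_⟩
  have h1 : s + (r + s * (f - 1)) = r + f * s := by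
    obtain ⟨n, hn⟩ : ∃ n, f = n + 1 := ⟨f - 1, by omega⟩
    rw [hn]
    simp
    ring
  ext g
  rw [MonoidHom.pow_apply, MonoidHom.pow_apply, MonoidHom.pow_apply, ← pow_mul (χ g), ← pow_add, h1]
  have h2 := pow_card_desc h g
  have h3 : p ^ r ≡ p ^ (r + f * s) [MOD finrank K M] := by
    have h4 : ((p ^ r : ℕ) : ZMod (finrank K M)) = ((p ^ (r + f * s) : ℕ) : ZMod (finrank K M)) := by
      push_cast
      rw [← hu, pow_add, pow_mul (u : ZMod (finrank K M)) f s, ← Units.val_pow_eq_pow_val u f, hf,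
        pow_orderOf_eq_one]
      simp
    exact (ZMod.natCast_eq_natCast_iff _ _ _).1 h4
  have h5 : p ^ r ≡ p ^ (r + f * s) [MOD orderOf (χ g)] :=
    h3.of_dvd (orderOf_dvd_of_pow_eq_one h2)
  exact congrArg (fun z : ℂ_[p]ˣ ↦ (z : ℂ_[p])) (pow_eq_pow_iff_modEq.2 h5)

end chr

end Pool.Agent.Helper38.FW
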